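import Mathlib
set_option autoImplicit false
namespace Pool.Agent.Helper507.SC

/-- `HasC G L v S`: the graph `G` contains an induced copy of the rooted caterpillar with leaf list `L`
(spine `v₀ v₁ … vₙ`, `n = L.length`, and `L[i]` leaves hanging on `vᵢ`), whose root is `v` and whose
other vertices all lie in `S`. -/
def HasC {V : Type} (G : SimpleGraph V) : List ℕ → V → Set V → Prop
  | [], _, _ => True
  | a :: L, v, S => ∃ Y : Finset V, Y.card = a ∧ (∀ y ∈ Y, y ∈ S ∧ G.Adj v y) ∧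
      (∀ y ∈ Y, ∀ z ∈ Y, ¬ G.Adj y z) ∧
      ∃ u ∈ S, G.Adj v u ∧ (∀ y ∈ Y, u ≠ y ∧ ¬ G.Adj y u) ∧
        HasC G L u {w | w ∈ S ∧ w ≠ v ∧ ¬ G.Adj v w ∧ ∀ y ∈ Y, w ≠ y ∧ ¬ G.Adj y w}

theorem HasC.mono {V : Type} {G : SimpleGraph V} {L : List ℕ} : ∀ {v : V} {S T : Set V},
    S ⊆ T → HasC G L v S → HasC G L v T := by
  induction L with
  | nil => intro v S T _ _; trivial
  | cons a L ih =>
    intro v S T hST h
    obtain ⟨Y, hYc, hY1, hY2, u, hu, hvu, hYu, hL⟩ := h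
    refine ⟨Y, hYc, fun y hy => ⟨hST (hY1 y hy).1, (hY1 y hy).2⟩, hY2, u, hST hu, hvu, hYu, ?_⟩
    exact ih (fun w hw => ⟨hST hw.1, hw.2⟩) hL

theorem HasC.map {V W : Type} {G : SimpleGraph V} {H : SimpleGraph W} (e : H ↪g G) {L : List ℕ} :
    ∀ {v : W} {S : Set W}, HasC H L v S → HasC G L (e v) (e '' S) := by
  classical
  induction L with
  | nil => intro v S _; trivial
  | cons a L ih =>
    intro v S h
    obtain ⟨Y, hYc, hY1, hY2, u, hu, hvu, hYu, hL⟩ := h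
    refine ⟨Y.map e.toEmbedding, by simpa using hYc, ?_, ?_, e u, ⟨u, hu, rfl⟩, e.map_adj_iff.2 hvu, ?_, ?_⟩
    · intro y hy
      obtain ⟨y0, hy0, rfl⟩ := Finset.mem_map.1 hy
      exact ⟨⟨y0, (hY1 y0 hy0).1, rfl⟩, e.map_adj_iff.2 (hY1 y0 hy0).2⟩
    · intro y hy z hz
      obtain ⟨y0, hy0, rfl⟩ := Finset.mem_map.1 hy
      obtain ⟨z0, hz0, rfl⟩ := Finset.mem_map.1 hz
      intro hh
      exact hY2 y0 hy0 z0 hz0 (e.map_adj_iff.1 hh)
    · intro y hy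
      obtain ⟨y0, hy0, rfl⟩ := Finset.mem_map.1 hy
      refine ⟨fun hh => (hYu y0 hy0).1 (e.injective hh), fun hh => (hYu y0 hy0).2 (e.map_adj_iff.1 hh)⟩
    · refine HasC.mono ?_ (ih hL)
      rintro w ⟨w0, ⟨h1, h2, h3, h4⟩, rfl⟩
      refine ⟨⟨w0, h1, rfl⟩, fun hh => h2 (e.injective hh), fun hh => h3 (e.map_adj_iff.1 hh), ?_⟩
      intro y hy
      obtain ⟨y0, hy0, rfl⟩ := Finset.mem_map.1 hy
      exact ⟨fun hh => (h4 y0 hy0).1 (e.injective hh), fun hh => (h4 y0 hy0).2 (e.map_adj_iff.1 hh)⟩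

theorem HasC.comap {V W : Type} {G : SimpleGraph V} {H : SimpleGraph W} (e : H ↪g G) {L : List ℕ} :
    ∀ {v : W} {S : Set V}, S ⊆ Set.range e → HasC G L (e v) S → HasC H L v (e ⁻¹' S) := by
  classical
  induction L with
  | nil => intro v S _ _; trivial
  | cons a L ih =>
    intro v S hS h
    obtain ⟨Y, hYc, hY1, hY2, u, hu, hvu, hYu, hL⟩ := h
    obtain ⟨u0, rfl⟩ := hS hu
    have hYe : ∀ y ∈ Y, ∃ y0, e y0 = y := fun y hy => hS (hY1 y hy).1
    refine ⟨Y.preimage e (e.injective.injOn), ?_, ?_, ?_, u0, hu, e.map_adj_iff.1 hvu, ?_, ?_⟩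
    · rw [← hYc]
      have : (Y.preimage e (e.injective.injOn)).map e.toEmbedding = Y := by
        ext y
        simp only [Finset.mem_map, Finset.mem_preimage]
        constructor
        · rintro ⟨y0, hy0, rfl⟩
          exact hy0
        · intro hy
          obtain ⟨y0, rfl⟩ := hYe y hy
          exact ⟨y0, hy, rfl⟩
      conv_rhs => rw [← this]
      simp
    · intro y hy
      have hy' := Finset.mem_preimage.1 hy
      exact ⟨(hY1 _ hy').1, e.map_adj_iff.1 (hY1 _ hy').2⟩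
    · intro y hy z hz hh
      exact hY2 _ (Finset.mem_preimage.1 hy) _ (Finset.mem_preimage.1 hz) (e.map_adj_iff.2 hh)
    · intro y hy
      have hy' := Finset.mem_preimage.1 hy
      exact ⟨fun hh => (hYu _ hy').1 (by rw [hh]), fun hh => (hYu _ hy').2 (e.map_adj_iff.2 hh)⟩
    · refine HasC.mono ?_ (ih (fun w hw => hS hw.1) hL)
      rintro w ⟨h1, h2, h3, h4⟩
      refine ⟨h1, fun hh => h2 (by rw [hh]), fun hh => h3 (e.map_adj_iff.2 hh), ?_⟩
      intro y hy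
      have hy' := Finset.mem_preimage.1 hy
      exact ⟨fun hh => (h4 _ hy').1 (by rw [hh]), fun hh => (h4 _ hy').2 (e.map_adj_iff.2 hh)⟩

/-- no triangle -/
def TriFree {V : Type} (G : SimpleGraph V) : Prop :=
  ∀ a b c, G.Adj a b → G.Adj b c → G.Adj a c → False

def Indep {V : Type} (G : SimpleGraph V) (X : Set V) : Prop := ∀ a ∈ X, ∀ b ∈ X, ¬ G.Adj a b

/-- `H` is `L`-robust: every nonempty independent set contains the root of an `L`-copy avoiding the set otherwise. -/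
def RobG {W : Type} (H : SimpleGraph W) (L : List ℕ) : Prop :=
  ∀ X : Set W, X.Nonempty → Indep H X → ∃ v ∈ X, HasC H L v Xᶜ

theorem hasC_cons0 {V : Type} {G : SimpleGraph V} {L : List ℕ} {v u : V} {S : Set V}
    (hvu : G.Adj v u) (hS : ∀ w ∈ S, w ≠ v ∧ ¬ G.Adj v w) (h : HasC G L u S) :
    HasC G (0 :: L) v (insert u S) := by
  refine ⟨∅, rfl, by simp, by simp, u, Set.mem_insert _ _, hvu, by simp, ?_⟩
  refine HasC.mono ?_ h
  intro w hw
  exact ⟨Set.mem_insert_of_mem _ hw, (hS w hw).1, (hS w hw).2, by simp⟩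

theorem hasC_leaves {V : Type} {G : SimpleGraph V} {L : List ℕ} {v : V} {S : Set V}
    (h : HasC G (0 :: L) v S) (Y : Finset V) (hv : ∀ y ∈ Y, G.Adj v y)
    (hi : ∀ y ∈ Y, ∀ z ∈ Y, ¬ G.Adj y z) (hS : ∀ y ∈ Y, ∀ s ∈ S, s ≠ y ∧ ¬ G.Adj y s) :
    HasC G (Y.card :: L) v (S ∪ ↑Y) := by
  obtain ⟨Y0, hY0c, -, -, u, hu, hvu, -, hL⟩ := h
  refine ⟨Y, rfl, fun y hy => ⟨Or.inr hy, hv y hy⟩, hi, u, Or.inl hu, hvu,
    fun y hy => hS y hy u hu, ?_⟩
  refine HasC.mono ?_ hL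
  intro w hw
  exact ⟨Or.inl hw.1, hw.2.1, hw.2.2.1, fun y hy => hS y hy w hw.1⟩

/-- extension through a robust copy -/
theorem hasC_ext {V W : Type} {G : SimpleGraph V} {H : SimpleGraph W} {L : List ℕ}
    (htri : TriFree G) (hR : RobG H L) (φ : H ↪g G) {v : V} (hv : ∀ h, φ h ≠ v)
    (ht : ∃ h, G.Adj v (φ h)) : HasC G (0 :: L) v (Set.range φ) := by
  obtain ⟨h0, hh0⟩ := ht
  obtain ⟨x, hx, hc⟩ := hR {h | G.Adj v (φ h)} ⟨h0, hh0⟩ (by
    intro a ha b hb hab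
    exact htri v (φ a) (φ b) ha (φ.map_adj_iff.2 hab) hb)
  have h1 := hasC_cons0 (v := v) (u := φ x) hx (S := φ '' {h | G.Adj v (φ h)}ᶜ) (by
    rintro w ⟨w0, hw0, rfl⟩
    exact ⟨hv w0, hw0⟩) (HasC.map φ hc)
  refine HasC.mono ?_ h1
  intro w hw
  rcases hw with rfl | ⟨w0, -, rfl⟩
  · exact ⟨x, rfl⟩
  · exact ⟨w0, rfl⟩

end Pool.Agent.Helper507.SC
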