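import Mathlib
set_option autoImplicit false
namespace Pool.Agent.Helper507.SC

/-- If every vertex has at most `d` out-neighbours of larger rank, the relation can be properly
coloured with `d+1` colours. -/
theorem degen_col {V : Type} [Finite V] (rk : V → ℕ) (R : V → V → Prop) (d : ℕ)
    (h : ∀ v, ∀ s : Finset V, (∀ w ∈ s, R v w ∧ rk v < rk w) → s.card ≤ d) :
    ∃ c : V → Fin (d + 1), ∀ v w, R v w → rk v < rk w → c v ≠ c w := by
  classical
  have := Fintype.ofFinite V
  obtain ⟨M, hM⟩ : ∃ M : ℕ, ∀ v, rk v ≤ M :=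
    ⟨Finset.univ.sup rk, fun v => Finset.le_sup (Finset.mem_univ v)⟩
  have hex : ∀ (c : V → Fin (d + 1)) (v : V),
      ∃ a : Fin (d + 1), ∀ w, R v w → rk v < rk w → c w ≠ a := by
    intro c v
    by_contra hcon
    push Not at hcon
    have h1 := h v (Finset.univ.filter fun w => R v w ∧ rk v < rk w) (fun w hw =>
      (Finset.mem_filter.1 hw).2)
    have h2 : (Finset.univ : Finset (Fin (d + 1))) ⊆
        (Finset.univ.filter fun w => R v w ∧ rk v < rk w).image c := by
      intro a _
      obtain ⟨w, hw1, hw2, hw3⟩ := hcon a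
      exact Finset.mem_image.2 ⟨w, Finset.mem_filter.2 ⟨Finset.mem_univ _, hw1, hw2⟩, hw3⟩
    have h3 := (Finset.card_le_card h2).trans Finset.card_image_le
    rw [Finset.card_univ, Fintype.card_fin] at h3
    omega
  have key : ∀ n : ℕ, ∃ c : V → Fin (d + 1), ∀ v w, M ≤ rk v + n → R v w → rk v < rk w →
      c v ≠ c w := by
    intro n
    induction n with
    | zero =>
      refine ⟨fun _ => 0, fun v w h1 _ h3 => ?_⟩
      have := hM w
      omega
    | succ n ih =>
      obtain ⟨c, hc⟩ := ih
      refine ⟨fun v => if rk v + (n + 1) = M then Classical.choose (hex c v) else c v, ?_⟩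
      intro v w h1 h2 h3
      have hw : ¬ (rk w + (n + 1) = M) := by omega
      by_cases hv : rk v + (n + 1) = M
      · simp only [hv, if_true, hw, if_false]
        exact fun h4 => Classical.choose_spec (hex c v) w h2 h3 h4.symm
      · simp only [hv, hw, if_false]
        exact hc v w (by omega) h2 h3
  obtain ⟨c, hc⟩ := key M
  exact ⟨c, fun v w h1 h2 => hc v w (by omega) h1 h2⟩


section top
open Classical in
/-- the `K` elements of `X` of largest rank -/
noncomputable def ktop {V : Type} (f : V → ℕ) (K : ℕ) (X : Finset V) : Finset V :=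
  X.filter fun b => (X.filter fun x => f b < f x).card < K

theorem ktop_subset {V : Type} (f : V → ℕ) (K : ℕ) (X : Finset V) : ktop f K X ⊆ X :=
  Finset.filter_subset _ _

theorem ktop_mono {V : Type} (f : V → ℕ) (K : ℕ) {X Y : Finset V} (hYX : Y ⊆ X) {b : V}
    (hb : b ∈ ktop f K X) (hbY : b ∈ Y) : b ∈ ktop f K Y := by
  classical
  unfold ktop at *
  rw [Finset.mem_filter] at *
  exact ⟨hbY, lt_of_le_of_lt (Finset.card_le_card (Finset.filter_subset_filter _ hYX)) hb.2⟩

theorem ktop_card_le {V : Type} (f : V → ℕ) (hf : Function.Injective f) (K : ℕ) (X : Finset V) :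
    (ktop f K X).card ≤ K := by
  classical
  by_cases hne : (ktop f K X).Nonempty
  · obtain ⟨b, hb, hmin⟩ := Finset.exists_min_image (ktop f K X) f hne
    have hb' := hb
    unfold ktop at hb'
    rw [Finset.mem_filter] at hb'
    have hsub : (ktop f K X).erase b ⊆ X.filter fun x => f b < f x := by
      intro x hx
      rw [Finset.mem_erase] at hx
      rw [Finset.mem_filter]
      refine ⟨ktop_subset f K X hx.2, lt_of_le_of_ne (hmin x hx.2) ?_⟩
      intro h
      exact hx.1 (hf h.symm)
    have h1 := Finset.card_le_card hsub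
    rw [Finset.card_erase_of_mem hb] at h1
    omega
  · rw [Finset.not_nonempty_iff_eq_empty] at hne
    rw [hne]; simp

theorem ktop_card {V : Type} (f : V → ℕ) (hf : Function.Injective f) (K : ℕ) (X : Finset V)
    (hK : K ≤ X.card) : (ktop f K X).card = K := by
  classical
  refine le_antisymm (ktop_card_le f hf K X) ?_
  by_contra hlt
  push Not at hlt
  have hne : (X \ ktop f K X).Nonempty := by
    rw [Finset.nonempty_iff_ne_empty]
    intro h
    rw [Finset.sdiff_eq_empty_iff_subset] at h
    have := Finset.card_le_card h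
    omega
  obtain ⟨b, hb, hmax⟩ := Finset.exists_max_image _ f hne
  rw [Finset.mem_sdiff] at hb
  apply hb.2
  have hsub : (X.filter fun x => f b < f x) ⊆ ktop f K X := by
    intro x hx
    rw [Finset.mem_filter] at hx
    by_contra hx'
    have := hmax x (Finset.mem_sdiff.mpr ⟨hx.1, hx'⟩)
    omega
  have := Finset.card_le_card hsub
  unfold ktop
  rw [Finset.mem_filter]
  exact ⟨hb.1, by omega⟩

end top

/-- THE TARGET. -/
theorem J_col (m : ℕ) : ∃ N : ℕ, ∀ (V : Type) [Finite V] (g : V → ℕ) (R : V → V → Prop),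
    (∀ v w, R v w → g v < g w) →
    (∀ v x x', R v x → R x x' → ∀ s : Finset V, (∀ y ∈ s, R v y ∧ ¬ R y x') → s.card ≤ m) →
    ∃ c : V → Fin N, ∀ v w, R v w → c v ≠ c w := by
  classical
  set K : ℕ := m + 1 with hK
  refine ⟨Fintype.card (Bool × Fin (m + 1) × Fin (K * m + 1) × Fin (2 ^ (K * K) + 1)), ?_⟩
  intro V _ g R hg hR
  have := Fintype.ofFinite V
  -- injective refinement of `g`
  obtain ⟨f, hf, hfR⟩ : ∃ f : V → ℕ, Function.Injective f ∧ ∀ v w, R v w → f v < f w := by
    set n := Fintype.card V with hn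
    let e : V ≃ Fin n := Fintype.equivFin V
    refine ⟨fun v => g v * n + e v, ?_, ?_⟩
    · intro v w h
      simp only at h
      have h1 : (g v * n + (e v : ℕ)) % n = (g w * n + (e w : ℕ)) % n := by rw [h]
      rw [Nat.mul_add_mod', Nat.mul_add_mod', Nat.mod_eq_of_lt (e v).2,
        Nat.mod_eq_of_lt (e w).2] at h1
      exact e.injective (Fin.ext h1)
    · intro v w h
      have h1 := hg v w h
      have h2 := (e v).2
      show g v * n + (e v : ℕ) < g w * n + (e w : ℕ)
      have h3 : (g v + 1) * n ≤ g w * n := Nat.mul_le_mul_right _ h1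
      rw [add_mul, one_mul] at h3
      omega
  let A : V → Finset V := fun v => Finset.univ.filter fun w => R v w
  have hA : ∀ v w, w ∈ A v ↔ R v w := fun v w => by simp [A]
  let B : V → Finset V := fun v => (A v).biUnion A
  have hB : ∀ v w, w ∈ B v ↔ ∃ x, R v x ∧ R x w := fun v w => by simp [B, hA]
  let kap : V → Finset V := fun v => ktop f K (A v)
  let Z : V → Finset V := fun v => ktop f K (B v)
  let U : Finset V → Finset V := fun k => k.biUnion fun q => ktop f K (A q)
  have hU : ∀ k : Finset V, k.card ≤ K → (U k).card ≤ K * K := by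
    intro k hk
    refine (Finset.card_biUnion_le_card_mul _ _ K fun q _ => ktop_card_le f hf K _).trans ?_
    exact Nat.mul_le_mul_right _ hk
  -- (a)
  have ha : ∀ v, K ≤ (A v).card → ∀ b ∈ Z v, ∃ q ∈ kap v, R q b := by
    intro v hv b hb
    obtain ⟨x, hvx, hxb⟩ := (hB v b).1 (ktop_subset f K _ hb)
    by_contra hcon
    push Not at hcon
    have h1 := hR v x b hvx hxb (kap v) fun y hy =>
      ⟨(hA v y).1 (ktop_subset f K _ hy), hcon y hy⟩
    have h2 : (kap v).card = K := ktop_card f hf K _ hv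
    omega
  have ha' : ∀ v, K ≤ (A v).card → Z v ⊆ U (kap v) := by
    intro v hv b hb
    obtain ⟨q, hq, hqb⟩ := ha v hv b hb
    refine Finset.mem_biUnion.2 ⟨q, hq, ?_⟩
    refine ktop_mono f K (X := B v) ?_ hb ((hA q b).2 hqb)
    intro w hw
    exact (hB v w).2 ⟨q, (hA v q).1 (ktop_subset f K _ hq), (hA q w).1 hw⟩
  -- first colouring
  obtain ⟨c1, hc1⟩ := degen_col f (fun v w => R v w ∧ (A v).card ≤ m) m (by
    intro v s hs
    by_cases hv : (A v).card ≤ m
    · refine (Finset.card_le_card ?_).trans hv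
      intro w hw
      exact (hA v w).2 (hs w hw).1.1
    · have : s = ∅ := by
        rw [Finset.eq_empty_iff_forall_notMem]
        intro w hw
        exact hv (hs w hw).1.2
      rw [this]; simp)
  -- second colouring
  obtain ⟨c2, hc2⟩ := degen_col f (fun v w => R v w ∧ ¬ Z v ⊆ A w) (K * m) (by
    intro v s hs
    have hsub : s ⊆ (Z v).biUnion fun b => s.filter fun y => R v y ∧ ¬ R y b := by
      intro y hy
      obtain ⟨⟨h1, h2⟩, -⟩ := hs y hy
      rw [Finset.not_subset] at h2
      obtain ⟨b, hb, hb'⟩ := h2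
      rw [hA] at hb'
      exact Finset.mem_biUnion.2 ⟨b, hb, Finset.mem_filter.2 ⟨hy, h1, hb'⟩⟩
    refine (Finset.card_le_card hsub).trans ?_
    refine (Finset.card_biUnion_le_card_mul _ _ m fun b hb => ?_).trans
      (Nat.mul_le_mul_right _ (ktop_card_le f hf K _))
    obtain ⟨x, hvx, hxb⟩ := (hB v b).1 (ktop_subset f K _ hb)
    exact hR v x b hvx hxb _ fun y hy => (Finset.mem_filter.1 hy).2)
  -- third colouring
  let rk : Finset V → ℕ := fun k => sInf (f '' (k : Set V))
  obtain ⟨c3, hc3⟩ := degen_col rk (fun k k' => k' ⊆ U k ∧ k.card ≤ K) (2 ^ (K * K)) (by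
    intro k s hs
    by_cases hk : k.card ≤ K
    · have hsub : s ⊆ (U k).powerset := fun k' hk' => Finset.mem_powerset.2 (hs k' hk').1.1
      refine (Finset.card_le_card hsub).trans ?_
      rw [Finset.card_powerset]
      exact Nat.pow_le_pow_right (by norm_num) (hU k hk)
    · have : s = ∅ := by
        rw [Finset.eq_empty_iff_forall_notMem]
        intro w hw
        exact hk (hs w hw).1.2
      rw [this]; simp)
  refine ⟨fun v => Fintype.equivFin _ (decide ((A v).card ≤ m), c1 v, c2 v, c3 (kap v)), ?_⟩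
  intro v w hvw heq
  have h0 := (Fintype.equivFin _).injective heq
  simp only [Prod.mk.injEq, decide_eq_decide] at h0
  obtain ⟨e0, e1, e2, e3⟩ := h0
  by_cases hv : (A v).card ≤ m
  · exact hc1 v w ⟨hvw, hv⟩ (hfR v w hvw) e1
  have hw : ¬ (A w).card ≤ m := fun h => hv (e0.2 h)
  have hv' : K ≤ (A v).card := by omega
  have hw' : K ≤ (A w).card := by omega
  by_cases hZ : Z v ⊆ A w
  swap
  · exact hc2 v w ⟨hvw, hZ⟩ (hfR v w hvw) e2
  have hAB : A w ⊆ B v := fun x hx => (hB v x).2 ⟨w, hvw, (hA w x).1 hx⟩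
  have hZc : (Z v).card = K := ktop_card f hf K _ (hw'.trans (Finset.card_le_card hAB))
  have hkw : Z v = kap w := by
    refine Finset.eq_of_subset_of_card_le (fun b hb => ktop_mono f K hAB hb (hZ hb)) ?_
    rw [hZc]
    exact ktop_card_le f hf K _
  refine hc3 (kap v) (kap w) ⟨hkw ▸ ha' v hv', ktop_card_le f hf K _⟩ ?_ e3
  -- ranks
  have hne : (f '' (kap w : Set V)).Nonempty := by
    rw [← hkw]
    have : (Z v).Nonempty := by
      rw [← Finset.card_pos, hZc]; omega
    exact (Finset.coe_nonempty.2 this).image f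
  obtain ⟨b, hb, hfb⟩ := Nat.sInf_mem hne
  rw [← hkw] at hb
  obtain ⟨q, hq, hqb⟩ := ha v hv' b hb
  have h1 : rk (kap v) ≤ f q := Nat.sInf_le ⟨q, hq, rfl⟩
  have h2 : f q < f b := hfR q b hqb
  have h3 : rk (kap w) = f b := hfb.symm
  omega

end Pool.Agent.Helper507.SC
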