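import Pool.Agent.Helper507.SC.Base
import Pool.Agent.Helper507.SC.Col
set_option autoImplicit false
namespace Pool.Agent.Helper507.SC

theorem core {W : Type} [Finite W] [Nonempty W] (H : SimpleGraph W) {L : List ℕ} (m : ℕ)
    (hR0 : RobG H L) (hR1 : RobG H (0 :: L)) (hR2 : RobG H (0 :: 0 :: L))
    (hE : ∃ a b, H.Adj a b) :
    ∃ (C : Type) (_ : Finite C), ∀ (V : Type) [Finite V] (G : SimpleGraph V), TriFree G →
      ∀ g : V → ℕ, (∀ a b, G.Adj a b → g a ≠ g b) →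
      (∀ v, ¬ HasC G ((m + 1) :: 0 :: 0 :: L) v {w | g v < g w}) →
      ∃ c : V → C, ∀ φ : H ↪g G, ∃ x y, c (φ x) ≠ c (φ y) := by
  classical
  obtain ⟨NJ, hNJ⟩ := J_col m
  refine ⟨Fin 3 × W × Fin (m + 1) × Fin (m + 1) × Fin NJ, inferInstance, ?_⟩
  intro V _ G htri g hg hbad
  -- general leaf bound
  have LL : ∀ v (S : Set V), HasC G (0 :: 0 :: 0 :: L) v S → (∀ w ∈ S, g v < g w) →
      ∀ s : Finset V, (∀ y ∈ s, G.Adj v y ∧ g v < g y ∧ ∀ w ∈ S, w ≠ y ∧ ¬ G.Adj y w) →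
      s.card ≤ m := by
    intro v S hS hSg s hs
    by_contra hcon
    obtain ⟨Y, hYs, hYc⟩ := Finset.exists_subset_card_eq (show m + 1 ≤ s.card by omega)
    have h1 := hasC_leaves hS Y (fun y hy => (hs y (hYs hy)).1)
      (fun y hy z hz hyz => htri v y z (hs y (hYs hy)).1 hyz (hs z (hYs hz)).1)
      (fun y hy w hw => (hs y (hYs hy)).2.2 w hw)
    rw [hYc] at h1
    refine hbad v (HasC.mono ?_ h1)
    rintro w (hw | hw)
    · exact hSg w hw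
    · exact (hs w (hYs hw)).2.1
  have hex : ∀ φ : H ↪g G, ∃ h0, ∀ h, g (φ h0) ≤ g (φ h) := fun φ =>
    Finite.exists_min (fun h => g (φ h))
  choose h0 hh0 using hex
  obtain ⟨mn, hmn⟩ : ∃ mn : (H ↪g G) → ℕ, mn = fun φ => g (φ (h0 φ)) := ⟨_, rfl⟩
  have hmn1 : ∀ φ h, mn φ ≤ g (φ h) := by
    intro φ h
    rw [hmn]
    exact hh0 φ h
  have hmn2 : ∀ φ, ∃ h, g (φ h) = mn φ := by
    intro φ
    exact ⟨h0 φ, by rw [hmn]⟩
  have hfin : Finite (H ↪g G) :=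
    Finite.of_injective (fun φ : H ↪g G => (φ : W → V)) DFunLike.coe_injective
  -- injective ranking
  obtain ⟨r, hrinj, hrmn⟩ : ∃ r : (H ↪g G) → ℕ, Function.Injective r ∧
      ∀ φ ψ, mn φ < mn ψ → r φ < r ψ := by
    obtain ⟨e⟩ := (⟨Finite.equivFin (H ↪g G)⟩ : Nonempty ((H ↪g G) ≃ Fin (Nat.card (H ↪g G))))
    refine ⟨fun φ => mn φ * Nat.card (H ↪g G) + (e φ : ℕ), ?_, ?_⟩
    · intro φ ψ hh
      have hh' : mn φ * Nat.card (H ↪g G) + (e φ : ℕ) = mn ψ * Nat.card (H ↪g G) + (e ψ : ℕ) := hh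
      have h1 := (e φ).2
      have h2 := (e ψ).2
      have h3 : (e φ : ℕ) = (e ψ : ℕ) := by
        have a1 : (mn φ * Nat.card (H ↪g G) + (e φ : ℕ)) % Nat.card (H ↪g G) = (e φ : ℕ) := by
          rw [Nat.mul_comm, Nat.mul_add_mod, Nat.mod_eq_of_lt h1]
        have a2 : (mn ψ * Nat.card (H ↪g G) + (e ψ : ℕ)) % Nat.card (H ↪g G) = (e ψ : ℕ) := by
          rw [Nat.mul_comm, Nat.mul_add_mod, Nat.mod_eq_of_lt h2]
        rw [← a1, ← a2, hh']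
      exact e.injective (Fin.ext h3)
    · intro φ ψ hh
      have h1 := (e φ).2
      have h2 : (mn φ + 1) * Nat.card (H ↪g G) ≤ mn ψ * Nat.card (H ↪g G) :=
        Nat.mul_le_mul_right _ hh
      have h3 : (mn φ + 1) * Nat.card (H ↪g G) = mn φ * Nat.card (H ↪g G) + Nat.card (H ↪g G) := by
        ring
      show mn φ * Nat.card (H ↪g G) + (e φ : ℕ) < mn ψ * Nat.card (H ↪g G) + (e ψ : ℕ)
      omega
  have hrmn' : ∀ φ ψ, r φ ≤ r ψ → mn φ ≤ mn ψ := by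
    intro φ ψ h
    by_contra hcon
    have := hrmn ψ φ (by omega)
    omega
  obtain ⟨A, hA⟩ : ∃ A : (H ↪g G) → V → Prop, A = fun φ v => (∃ h, G.Adj v (φ h)) ∧ g v < mn φ :=
    ⟨_, rfl⟩
  obtain ⟨N, hN⟩ : ∃ N : (H ↪g G) → V → Prop, N = fun φ y => ∃ h, φ h = y ∨ G.Adj y (φ h) :=
    ⟨_, rfl⟩
  obtain ⟨P, hP⟩ : ∃ P : V → Prop, P = fun v => ∃ φ : H ↪g G, (∃ h, φ h = v) ∧ mn φ = g v :=
    ⟨_, rfl⟩
  have hAi : ∀ φ v, A φ v ↔ (∃ h, G.Adj v (φ h)) ∧ g v < mn φ := by intro φ v; rw [hA]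
  have hNi : ∀ φ y, N φ y ↔ ∃ h, φ h = y ∨ G.Adj y (φ h) := by intro φ v; rw [hN]
  have hPi : ∀ v, P v ↔ ∃ φ : H ↪g G, (∃ h, φ h = v) ∧ mn φ = g v := by intro v; rw [hP]
  have Ane : ∀ φ v, g v < mn φ → ∀ h, φ h ≠ v := by
    intro φ v hv h hh
    have := hmn1 φ h
    rw [hh] at this
    omega
  have LL1 : ∀ v φ, A φ v → ∀ s : Finset V, (∀ y ∈ s, G.Adj v y ∧ g v < g y ∧ ¬ N φ y) →
      s.card ≤ m := by
    intro v φ hv s hs
    obtain ⟨ht, hlt⟩ := (hAi φ v).1 hv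
    refine LL v (Set.range φ) (hasC_ext htri hR2 φ (Ane φ v hlt) ht) ?_ s ?_
    · rintro w ⟨h, rfl⟩
      exact lt_of_lt_of_le hlt (hmn1 φ h)
    · intro y hy
      refine ⟨(hs y hy).1, (hs y hy).2.1, ?_⟩
      rintro w ⟨h, rfl⟩
      refine ⟨fun hh => (hs y hy).2.2 ((hNi φ y).2 ⟨h, Or.inl hh⟩),
        fun hh => (hs y hy).2.2 ((hNi φ y).2 ⟨h, Or.inr hh⟩)⟩
  have LL2 : ∀ v x φ, G.Adj v x → g v < g x → A φ x →
      ∀ s : Finset V, (∀ y ∈ s, G.Adj v y ∧ g v < g y ∧ ¬ N φ y) → s.card ≤ m := by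
    intro v x φ hvx hlt hx s hs
    obtain ⟨ht, hxlt⟩ := (hAi φ x).1 hx
    by_cases hv : ∃ h, G.Adj v (φ h)
    · exact LL1 v φ ((hAi φ v).2 ⟨hv, by omega⟩) s hs
    · push Not at hv
      refine LL v (insert x (Set.range φ)) (hasC_cons0 hvx ?_
        (hasC_ext htri hR1 φ (Ane φ x hxlt) ht)) ?_ s ?_
      · rintro w ⟨h, rfl⟩
        exact ⟨Ane φ v (by omega) h, hv h⟩
      · rintro w (rfl | ⟨h, rfl⟩)
        · exact hlt
        · have := hmn1 φ h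
          omega
      · intro y hy
        obtain ⟨hy1, hy2, hy3⟩ := hs y hy
        refine ⟨hy1, hy2, ?_⟩
        rintro w (rfl | ⟨h, rfl⟩)
        · refine ⟨?_, ?_⟩
          · rintro rfl
            obtain ⟨h, hh⟩ := ht
            exact hy3 ((hNi φ _).2 ⟨h, Or.inr hh⟩)
          · intro hh
            exact htri v y w hy1 hh hvx
        · refine ⟨fun hh => hy3 ((hNi φ y).2 ⟨h, Or.inl hh⟩),
            fun hh => hy3 ((hNi φ y).2 ⟨h, Or.inr hh⟩)⟩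
  have LL3 : ∀ v x x' φ, G.Adj v x → g v < g x → G.Adj x x' → g x < g x' → A φ x' →
      ∀ s : Finset V, (∀ y ∈ s, G.Adj v y ∧ g v < g y ∧ ¬ G.Adj y x' ∧ ¬ N φ y) → s.card ≤ m := by
    intro v x x' φ hvx hlt hxx' hlt' hx' s hs
    obtain ⟨ht, hxlt⟩ := (hAi φ x').1 hx'
    by_cases hv : ∃ h, G.Adj v (φ h)
    · exact LL1 v φ ((hAi φ v).2 ⟨hv, by omega⟩) s (fun y hy => ⟨(hs y hy).1, (hs y hy).2.1, (hs y hy).2.2.2⟩)
    by_cases hx : ∃ h, G.Adj x (φ h)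
    · exact LL2 v x φ hvx hlt ((hAi φ x).2 ⟨hx, by omega⟩) s
        (fun y hy => ⟨(hs y hy).1, (hs y hy).2.1, (hs y hy).2.2.2⟩)
    push Not at hv hx
    have hvx' : ¬ G.Adj v x' := fun hh => htri v x x' hvx hxx' hh
    refine LL v (insert x (insert x' (Set.range φ))) (hasC_cons0 hvx ?_ (hasC_cons0 hxx' ?_
        (hasC_ext htri hR0 φ (Ane φ x' hxlt) ht))) ?_ s ?_
    · rintro w (rfl | ⟨h, rfl⟩)
      · exact ⟨fun hh => by rw [hh] at hlt'; omega, hvx'⟩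
      · exact ⟨Ane φ v (by omega) h, hv h⟩
    · rintro w ⟨h, rfl⟩
      exact ⟨Ane φ x (by omega) h, hx h⟩
    · rintro w (rfl | rfl | ⟨h, rfl⟩)
      · exact hlt
      · show g v < g w
        omega
      · have := hmn1 φ h
        show g v < g (φ h)
        omega
    · intro y hy
      obtain ⟨hy1, hy2, hy3, hy4⟩ := hs y hy
      refine ⟨hy1, hy2, ?_⟩
      rintro w (rfl | rfl | ⟨h, rfl⟩)
      · exact ⟨fun hh => hy3 (hh ▸ hxx'), fun hh => htri v y w hy1 hh hvx⟩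
      · exact ⟨fun hh => hvx' (hh ▸ hy1), hy3⟩
      · exact ⟨fun hh => hy4 ((hNi φ y).2 ⟨h, Or.inl hh⟩),
          fun hh => hy4 ((hNi φ y).2 ⟨h, Or.inr hh⟩)⟩
  -- trivial case: no copies at all
  rcases isEmpty_or_nonempty (H ↪g G) with hempty | hne
  · obtain ⟨w0⟩ := ‹Nonempty W›
    by_cases hN0 : NJ = 0
    · subst hN0
      obtain ⟨c, -⟩ := hNJ V g (fun _ _ => False) (fun _ _ h => h.elim) (fun _ _ _ h => h.elim)
      exact ⟨fun v => (0, w0, 0, 0, c v), fun φ => (hempty.false φ).elim⟩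
    · exact ⟨fun _ => (0, w0, 0, 0, ⟨0, Nat.pos_of_ne_zero hN0⟩), fun φ => (hempty.false φ).elim⟩
  obtain ⟨Φ, hΦ⟩ : ∃ Φ : V → (H ↪g G), ∀ v, (∃ φ, A φ v) → A (Φ v) v ∧ ∀ ψ, A ψ v → r ψ ≤ r (Φ v) := by
    have : ∀ v, ∃ φ0 : H ↪g G, (∃ φ, A φ v) → A φ0 v ∧ ∀ ψ, A ψ v → r ψ ≤ r φ0 := by
      intro v
      by_cases h : ∃ φ, A φ v
      · obtain ⟨φ1, hφ1⟩ := h
        have : Nonempty {φ : H ↪g G // A φ v} := ⟨⟨φ1, hφ1⟩⟩
        obtain ⟨φ0, hφ0⟩ := Finite.exists_max (fun φ : {φ : H ↪g G // A φ v} => r φ.1)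
        exact ⟨φ0.1, fun _ => ⟨φ0.2, fun ψ hψ => hφ0 ⟨ψ, hψ⟩⟩⟩
      · obtain ⟨φ1⟩ := hne
        exact ⟨φ1, fun hh => absurd hh h⟩
    choose Φ hΦ using this
    exact ⟨Φ, hΦ⟩
  have F1 : ∀ v x, (∃ φ, A φ v) → P x → G.Adj v x → g v < g x → g x ≤ mn (Φ v) := by
    intro v x hv hx hvx hlt
    obtain ⟨φ, ⟨h, hh⟩, hm⟩ := (hPi x).1 hx
    have hA1 : A φ v := (hAi φ v).2 ⟨⟨h, by rw [hh]; exact hvx⟩, by omega⟩
    have := hrmn' _ _ ((hΦ v hv).2 φ hA1)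
    omega
  have F2 : ∀ y φ, (∃ φ, A φ y) → g y ≤ mn φ → N φ y → r φ ≤ r (Φ y) := by
    intro y φ hy hle hNy
    rcases lt_or_eq_of_le hle with hlt | heq
    · refine (hΦ y hy).2 φ ((hAi φ y).2 ⟨?_, hlt⟩)
      obtain ⟨h, hh | hh⟩ := (hNi φ y).1 hNy
      · exact absurd hh (Ane φ y hlt h)
      · exact ⟨h, hh⟩
    · have h1 := ((hAi _ _).1 (hΦ y hy).1).2
      exact le_of_lt (hrmn _ _ (by omega))
  -- V2
  obtain ⟨V2, hV2⟩ : ∃ V2 : V → Prop, ∀ v, V2 v ↔ P v ∧ ∃ φ, A φ v := ⟨_, fun v => Iff.rfl⟩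
  obtain ⟨cw, hcw⟩ : ∃ cw : V → W, ∀ v, V2 v → G.Adj v (Φ v (cw v)) := by
    have : ∀ v, ∃ w : W, V2 v → G.Adj v (Φ v w) := by
      intro v
      by_cases h : V2 v
      · obtain ⟨w, hw⟩ := ((hAi _ _).1 (hΦ v ((hV2 v).1 h).2).1).1
        exact ⟨w, fun _ => hw⟩
      · obtain ⟨w0⟩ := ‹Nonempty W›
        exact ⟨w0, fun hh => absurd hh h⟩
    choose cw hcw using this
    exact ⟨cw, hcw⟩
  have V2A : ∀ v, V2 v → ∃ φ, A φ v := fun v hv => ((hV2 v).1 hv).2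
  have V2P : ∀ v, V2 v → P v := fun v hv => ((hV2 v).1 hv).1
  obtain ⟨e1, he1⟩ := degen_col g (fun v x => V2 v ∧ V2 x ∧ G.Adj v x ∧ ¬ N (Φ v) x) m (by
    intro v s hs
    rcases s.eq_empty_or_nonempty with rfl | ⟨y0, hy0⟩
    · simp
    · have hv := (hs y0 hy0).1.1
      exact LL1 v (Φ v) (hΦ v (V2A v hv)).1 s
        (fun y hy => ⟨(hs y hy).1.2.2.1, (hs y hy).2, (hs y hy).1.2.2.2⟩))
  obtain ⟨R2, hR2i⟩ : ∃ R2 : V → V → Prop, ∀ v x, R2 v x ↔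
      V2 v ∧ V2 x ∧ G.Adj v x ∧ g v < g x ∧ cw v = cw x ∧ e1 v = e1 x := ⟨_, fun v x => Iff.rfl⟩
  have hst : ∀ v x, R2 v x → r (Φ v) < r (Φ x) := by
    intro v x h
    obtain ⟨hv, hx, hvx, hlt, hc, he⟩ := (hR2i v x).1 h
    have hNx : N (Φ v) x := by
      by_contra hcon
      exact he1 v x ⟨hv, hx, hvx, hcon⟩ hlt he
    have h1 := F2 x (Φ v) (V2A x hx) (F1 v x (V2A v hv) (V2P x hx) hvx hlt) hNx
    rcases lt_or_eq_of_le h1 with h2 | h2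
    · exact h2
    · exfalso
      have h3 := hrinj h2
      have h4 := hcw v hv
      have h5 := hcw x hx
      rw [← h3, ← hc] at h5
      exact htri v x _ hvx h5 h4
  obtain ⟨e2, he2⟩ := degen_col g (fun v y => R2 v y ∧ ∃ x, R2 v x ∧ r (Φ y) < r (Φ x)) m (by
    intro v s hs
    rcases s.eq_empty_or_nonempty with rfl | ⟨y0, hy0⟩
    · simp
    · obtain ⟨h01, -⟩ := (hs y0 hy0).1
      have : Nonempty {x // R2 v x} := ⟨⟨y0, h01⟩⟩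
      obtain ⟨⟨xs, hxs⟩, hmax⟩ := Finite.exists_max (fun x : {x // R2 v x} => r (Φ x.1))
      obtain ⟨hv, hx, hvx, hlt, hc, he⟩ := (hR2i v xs).1 hxs
      refine LL2 v xs (Φ xs) hvx hlt (hΦ xs (V2A xs hx)).1 s ?_
      intro y hy
      obtain ⟨⟨hvy, x1, hx1, hlt1⟩, hgy⟩ := hs y hy
      obtain ⟨-, hy2, hy3, -, -, -⟩ := (hR2i v y).1 hvy
      refine ⟨hy3, hgy, ?_⟩
      intro hNy
      have hle : g y ≤ mn (Φ xs) :=
        (F1 v y (V2A v hv) (V2P y hy2) hy3 hgy).trans (hrmn' _ _ (hst v xs hxs).le)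
      have h1 := F2 y (Φ xs) (V2A y hy2) hle hNy
      have h2 := hmax ⟨x1, hx1⟩
      have h3 : r (Φ x1) ≤ r (Φ xs) := h2
      omega)
  obtain ⟨R3, hR3i⟩ : ∃ R3 : V → V → Prop, ∀ v x, R3 v x ↔ R2 v x ∧ e2 v = e2 x :=
    ⟨_, fun v x => Iff.rfl⟩
  have R3g : ∀ v x, R3 v x → g v < g x := fun v x h => ((hR2i v x).1 ((hR3i v x).1 h).1).2.2.2.1
  have hlev : ∀ v x y, R3 v x → R3 v y → r (Φ x) = r (Φ y) := by
    have key : ∀ v x y, R3 v x → R3 v y → ¬ r (Φ y) < r (Φ x) := by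
      intro v x y hx hy hlt
      exact he2 v y ⟨((hR3i v y).1 hy).1, x, ((hR3i v x).1 hx).1, hlt⟩ (R3g v y hy)
        ((hR3i v y).1 hy).2
    intro v x y hx hy
    have h1 := key v x y hx hy
    have h2 := key v y x hy hx
    omega
  obtain ⟨e3, he3⟩ := hNJ V g R3 R3g (by
    intro v x x' hvx hxx' s hs
    obtain ⟨a1, a2⟩ := (hR3i v x).1 hvx
    obtain ⟨b1, b2⟩ := (hR3i x x').1 hxx'
    obtain ⟨v2v, v2x, adjvx, gvx, cvx, evx⟩ := (hR2i v x).1 a1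
    obtain ⟨-, v2x', adjxx', gxx', cxx', exx'⟩ := (hR2i x x').1 b1
    refine LL3 v x x' (Φ x') adjvx gvx adjxx' gxx' (hΦ x' (V2A x' v2x')).1 s ?_
    intro y hy
    obtain ⟨hvy, hny⟩ := hs y hy
    obtain ⟨c1, c2⟩ := (hR3i v y).1 hvy
    obtain ⟨-, v2y, adjvy, gvy, cvy, evy⟩ := (hR2i v y).1 c1
    have hl := hlev v x y hvx hvy
    have hs1 := hst v x a1
    have hs2 := hst x x' b1
    refine ⟨adjvy, gvy, ?_, ?_⟩
    · intro hadj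
      rcases lt_or_gt_of_ne (hg y x' hadj) with hlt | hlt
      · exact hny ((hR3i y x').2 ⟨(hR2i y x').2 ⟨v2y, v2x', hadj, hlt, by rw [← cvy, cvx, cxx'],
          by rw [← evy, evx, exx']⟩, by rw [← c2, a2, b2]⟩)
      · have := hst x' y ((hR2i x' y).2 ⟨v2x', v2y, hadj.symm, hlt, by rw [← cvy, cvx, cxx'],
          by rw [← evy, evx, exx']⟩)
        omega
    · intro hNy
      have hle : g y ≤ mn (Φ x') :=
        (F1 v y (V2A v v2v) (V2P y v2y) adjvy gvy).trans (hrmn' _ _ (by omega))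
      have := F2 y (Φ x') (V2A y v2y) hle hNy
      omega)
  refine ⟨fun v => (if ¬ P v then 0 else if ¬ (∃ φ, A φ v) then 1 else 2, cw v, e1 v, e2 v, e3 v), ?_⟩
  intro φ
  by_contra hcon0
  have hcon : ∀ x y, (if ¬ P (φ x) then (0 : Fin 3) else if ¬ (∃ ψ, A ψ (φ x)) then 1 else 2,
      cw (φ x), e1 (φ x), e2 (φ x), e3 (φ x)) =
      (if ¬ P (φ y) then (0 : Fin 3) else if ¬ (∃ ψ, A ψ (φ y)) then 1 else 2,
      cw (φ y), e1 (φ y), e2 (φ y), e3 (φ y)) := by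
    intro x y
    by_contra h
    exact hcon0 ⟨x, y, h⟩
  obtain ⟨a, b, hab⟩ := hE
  have hcon' : ∀ x y, (if ¬ P (φ x) then (0 : Fin 3) else if ¬ (∃ ψ, A ψ (φ x)) then 1 else 2) =
      (if ¬ P (φ y) then (0 : Fin 3) else if ¬ (∃ ψ, A ψ (φ y)) then 1 else 2) ∧
      cw (φ x) = cw (φ y) ∧ e1 (φ x) = e1 (φ y) ∧ e2 (φ x) = e2 (φ y) ∧ e3 (φ x) = e3 (φ y) := by
    intro x y
    have := hcon x y
    simpa only [Prod.mk.injEq] using this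
  have hPh : P (φ (h0 φ)) := by
    refine (hPi _).2 ⟨φ, ⟨h0 φ, rfl⟩, ?_⟩
    rw [hmn]
  have hPall : ∀ x, P (φ x) := by
    intro x
    by_contra hx
    have := (hcon' x (h0 φ)).1
    by_cases hA2 : ∃ ψ, A ψ (φ (h0 φ))
    · simp [hx, hPh, hA2] at this
    · simp [hx, hPh, hA2] at this
  have main : ∀ a b, H.Adj a b → g (φ a) < g (φ b) → False := by
    intro a b hab hlt
    have hadj : G.Adj (φ a) (φ b) := φ.map_adj_iff.2 hab
    obtain ⟨ψ, ⟨h, hh⟩, hm⟩ := (hPi _).1 (hPall b)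
    have hAa : ∃ ψ, A ψ (φ a) := ⟨ψ, (hAi _ _).2 ⟨⟨h, by rw [hh]; exact hadj⟩, by omega⟩⟩
    have hAb : ∃ ψ, A ψ (φ b) := by
      by_contra hx
      have := (hcon' a b).1
      simp [hPall a, hPall b, hAa, hx] at this
    obtain ⟨-, q1, q2, q3, q4⟩ := hcon' a b
    exact he3 (φ a) (φ b) ((hR3i _ _).2 ⟨(hR2i _ _).2 ⟨(hV2 _).2 ⟨hPall a, hAa⟩,
      (hV2 _).2 ⟨hPall b, hAb⟩, hadj, hlt, q1, q2⟩, q3⟩) q4
  rcases lt_or_gt_of_ne (hg _ _ (φ.map_adj_iff.2 hab)) with h | h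
  · exact main a b hab h
  · exact main b a hab.symm h

end Pool.Agent.Helper507.SC
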