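import Pool.Agent.Helper507.SC.Base
set_option autoImplicit false
namespace Pool.Agent.Helper507.SC

def CatAdj (i j i' j' : ℕ) : Prop :=
  (j = 0 ∧ j' = 0 ∧ (i + 1 = i' ∨ i' + 1 = i)) ∨ (i = i' ∧ ((j = 0 ∧ j' ≠ 0) ∨ (j ≠ 0 ∧ j' = 0)))

/-- a caterpillar given by its leaf list embeds (job solved by helper847) -/
theorem hasC_embed {V : Type} (G : SimpleGraph V) : ∀ (L : List ℕ) (v : V) (S : Set V),
    HasC G L v S → v ∉ S → ∀ (n : ℕ) (ℓ : ℕ → ℕ), n ≤ L.length + 1 → (∀ i, i < n → ℓ i ≤ L.getD i 0) →
    ∃ E : ℕ → ℕ → V, E 0 0 = v ∧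
      (∀ i j, i < n → j ≤ ℓ i → (i ≠ 0 ∨ j ≠ 0) → E i j ∈ S) ∧
      (∀ i j i' j', i < n → j ≤ ℓ i → i' < n → j' ≤ ℓ i' →
        (E i j = E i' j' → i = i' ∧ j = j') ∧ (G.Adj (E i j) (E i' j') ↔ CatAdj i j i' j')) := by
  intro L
  induction L with
  | nil =>
    intro v S _ hv n ℓ hn hl
    simp only [List.length_nil, Nat.zero_add] at hn
    have h0 : ∀ i j, i < n → j ≤ ℓ i → i = 0 ∧ j = 0 := by
      intro i j hi hj
      have := hl i hi
      have hi0 : i = 0 := by omega
      subst hi0
      simp at this
      exact ⟨rfl, by omega⟩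
    refine ⟨fun _ _ => v, rfl, ?_, ?_⟩
    · intro i j hi hj h
      obtain ⟨h1, h2⟩ := h0 i j hi hj
      omega
    · intro i j i' j' hi hj hi' hj'
      obtain ⟨h1, h2⟩ := h0 i j hi hj
      obtain ⟨h3, h4⟩ := h0 i' j' hi' hj'
      subst h1; subst h2; subst h3; subst h4
      refine ⟨fun _ => ⟨rfl, rfl⟩, ?_⟩
      constructor
      · intro h; exact absurd h (G.loopless.irrefl v)
      · intro h; unfold CatAdj at h; omega
  | cons a L ih =>
    intro v S hC hv n ℓ hn hl
    obtain ⟨Y, hYc, hY1, hY2, u, huS, hvu, hu, hC'⟩ := hC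
    rcases n with _ | n
    · refine ⟨fun _ _ => v, rfl, ?_, ?_⟩
      · intro i j hi; omega
      · intro i j i' j' hi; omega
    have huS' : u ∉ {w | w ∈ S ∧ w ≠ v ∧ ¬ G.Adj v w ∧ ∀ y ∈ Y, w ≠ y ∧ ¬ G.Adj y w} := by
      intro h; exact h.2.2.1 hvu
    obtain ⟨E1, hE0, hE1, hE2⟩ := ih u _ hC' huS' n (fun i => ℓ (i + 1))
      (by simp only [List.length_cons] at hn; omega)
      (by
        intro i hi
        have := hl (i + 1) (by omega)
        simpa using this)
    have hl0 : ℓ 0 ≤ a := by simpa using hl 0 (by omega)
    have eqv : Fin a ≃ Y := (Finset.equivFinOfCardEq hYc).symm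
    let y : ℕ → V := fun j => if h : j < a then (eqv ⟨j, h⟩ : V) else v
    have hyY : ∀ j, j < a → y j ∈ Y := by
      intro j hj
      simp only [y, hj, dif_pos]
      exact (eqv ⟨j, hj⟩).2
    have hyinj : ∀ j j', j < a → j' < a → y j = y j' → j = j' := by
      intro j j' hj hj' h
      simp only [y, hj, hj', dif_pos] at h
      have := eqv.injective (Subtype.ext h)
      simpa using this
    let E : ℕ → ℕ → V := fun i j => match i, j with
      | 0, 0 => v
      | 0, (j + 1) => y j
      | (i + 1), j => E1 i j
    have hvY : ∀ z ∈ Y, v ≠ z := by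
      intro z hz e; subst e; exact hv (hY1 _ hz).1
    -- facts about E1
    have f1 : ∀ i j, i < n → j ≤ ℓ (i + 1) → E1 i j ∈ S := by
      intro i j hi hj
      by_cases h : i ≠ 0 ∨ j ≠ 0
      · exact (hE1 i j hi hj h).1
      · have h1 : i = 0 := by omega
        have h2 : j = 0 := by omega
        subst h1; subst h2; rw [hE0]; exact huS
    have f2 : ∀ i j, i < n → j ≤ ℓ (i + 1) → v ≠ E1 i j := by
      intro i j hi hj e
      exact hv (e ▸ f1 i j hi hj)
    have f3 : ∀ i j, i < n → j ≤ ℓ (i + 1) → (G.Adj v (E1 i j) ↔ i = 0 ∧ j = 0) := by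
      intro i j hi hj
      by_cases h : i ≠ 0 ∨ j ≠ 0
      · have := (hE1 i j hi hj h).2.2.1
        constructor
        · intro h'; exact absurd h' this
        · intro h'; omega
      · have h1 : i = 0 := by omega
        have h2 : j = 0 := by omega
        subst h1; subst h2; rw [hE0]; exact ⟨fun _ => ⟨rfl, rfl⟩, fun _ => hvu⟩
    have f4 : ∀ i j, i < n → j ≤ ℓ (i + 1) → ∀ z ∈ Y, E1 i j ≠ z ∧ ¬ G.Adj z (E1 i j) := by
      intro i j hi hj z hz
      by_cases h : i ≠ 0 ∨ j ≠ 0
      · exact (hE1 i j hi hj h).2.2.2 z hz
      · have h1 : i = 0 := by omega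
        have h2 : j = 0 := by omega
        subst h1; subst h2; rw [hE0]; exact hu z hz
    refine ⟨E, rfl, ?_, ?_⟩
    · intro i j hi hj h
      rcases i with _ | i
      · rcases j with _ | j
        · omega
        · exact (hY1 _ (hyY j (by omega))).1
      · exact f1 i j (by omega) hj
    · intro i j i' j' hi hj hi' hj'
      rcases i with _ | i
      · rcases j with _ | j
        · rcases i' with _ | i'
          · rcases j' with _ | j'
            · refine ⟨fun _ => ⟨rfl, rfl⟩, ?_⟩
              constructor
              · intro h; exact absurd h (G.loopless.irrefl v)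
              · intro h; unfold CatAdj at h; omega
            · refine ⟨fun h => absurd h (hvY _ (hyY j' (by omega))), ?_⟩
              constructor
              · intro _; unfold CatAdj; omega
              · intro _; exact (hY1 _ (hyY j' (by omega))).2
          · refine ⟨fun h => absurd h (f2 i' j' (by omega) hj'), ?_⟩
            refine (f3 i' j' (by omega) hj').trans ?_
            unfold CatAdj; omega
        · rcases i' with _ | i'
          · rcases j' with _ | j'
            · refine ⟨fun h => absurd h.symm (hvY _ (hyY j (by omega))), ?_⟩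
              constructor
              · intro _; unfold CatAdj; omega
              · intro _; exact (hY1 _ (hyY j (by omega))).2.symm
            · refine ⟨fun h => ?_, ?_⟩
              · have := hyinj j j' (by omega) (by omega) h
                subst this; exact ⟨rfl, rfl⟩
              · constructor
                · intro h; exact absurd h (hY2 _ (hyY j (by omega)) _ (hyY j' (by omega)))
                · intro h; unfold CatAdj at h; omega
          · refine ⟨fun h => absurd h.symm (f4 i' j' (by omega) hj' _ (hyY j (by omega))).1, ?_⟩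
            constructor
            · intro h; exact absurd h (f4 i' j' (by omega) hj' _ (hyY j (by omega))).2
            · intro h; unfold CatAdj at h; omega
      · rcases i' with _ | i'
        · rcases j' with _ | j'
          · refine ⟨fun h => absurd h.symm (f2 i j (by omega) hj), ?_⟩
            refine (G.adj_comm _ _).trans ((f3 i j (by omega) hj).trans ?_)
            unfold CatAdj; omega
          · refine ⟨fun h => absurd h (f4 i j (by omega) hj _ (hyY j' (by omega))).1, ?_⟩
            constructor
            · intro h; exact absurd h.symm (f4 i j (by omega) hj _ (hyY j' (by omega))).2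
            · intro h; unfold CatAdj at h; omega
        · obtain ⟨g1, g2⟩ := hE2 i j i' j' (by omega) hj (by omega) hj'
          refine ⟨fun h => ?_, ?_⟩
          · obtain ⟨e1, e2⟩ := g1 h
            exact ⟨by omega, e2⟩
          · refine g2.trans ?_
            unfold CatAdj; omega

end Pool.Agent.Helper507.SC
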