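import Pool.Agent.Helper507.SC.Robust
import Pool.Agent.Helper507.SC.Core
set_option autoImplicit false
namespace Pool.Agent.Helper507.SC

variable {F : ∀ {V : Type}, SimpleGraph V → Prop}

theorem RobS.leg (hF : Cls F) {L : List ℕ} (m : ℕ) (hL : RobS F [L]) :
    RobS F [(m + 1) :: 0 :: 0 :: L] := by
  classical
  by_contra hcon
  have h1 := RobS.up hF hL
  have h2 := RobS.up hF h1
  obtain ⟨W, _, _, H, hH, hr⟩ := RobS.append hF (RobS.append hF hL h1) (RobS.append hF h2 (robS_zero hF))
  obtain ⟨C, _, hC⟩ := core H m (hr L (by simp)) (hr (0 :: L) (by simp)) (hr (0 :: 0 :: L) (by simp))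
    (exists_edge (hr [0] (by simp)))
  obtain ⟨V, _, G, hG, huns⟩ := hF.uns W H hH (Nat.card C)
  obtain ⟨g, τ, h1, h2, h3⟩ := peel hF hcon _ V G rfl hG
  have h3' : ∀ v, ¬ HasC G ((m + 1) :: 0 :: 0 :: L) v {w | g v < g w} := by
    intro v
    have := h1 v
    simp only [List.mem_singleton] at this
    rw [← this]
    exact h3 v
  obtain ⟨c, hc⟩ := hC V G (hF.tri G hG) g h2 h3'
  obtain ⟨e, he⟩ := huns (fun v => Finite.equivFin C (c v))
  obtain ⟨x, y, hxy⟩ := hc e
  exact hxy ((Finite.equivFin C).injective (he x y))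

/-- lists built by the two operations -/
inductive Good : List ℕ → Prop
  | nil : Good []
  | zero {L : List ℕ} : Good L → Good (0 :: L)
  | leg {L : List ℕ} (m : ℕ) : Good L → Good ((m + 1) :: 0 :: 0 :: L)

theorem Good.rob (hF : Cls F) {L : List ℕ} (h : Good L) : RobS F [L] := by
  induction h with
  | nil => exact robS_nil hF
  | zero _ ih => exact RobS.up hF ih
  | leg m _ ih => exact RobS.leg hF m ih

theorem Good.hasC (hF : Cls F) {L : List ℕ} (h : Good L) :
    ∃ (V : Type) (_ : Finite V) (G : SimpleGraph V) (v : V), F G ∧ HasC G L v {v}ᶜ := by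
  obtain ⟨W, i1, ⟨x⟩, H, hH, hr⟩ := Good.rob hF h
  obtain ⟨v, hv, hc⟩ := hr L (by simp) {x} ⟨x, rfl⟩ (by
    rintro a rfl b rfl
    exact H.loopless.irrefl _)
  have hv' : v = x := hv
  subst hv'
  exact ⟨W, i1, H, v, hH, hc⟩

/-- sparse leaf functions give good lists -/
theorem good_list (n : ℕ) : ∀ (ℓ : ℕ → ℕ),
    (∀ i j, i < j → j < n → ℓ i ≠ 0 → ℓ j ≠ 0 → i + 3 ≤ j) →
    ∃ L : List ℕ, Good L ∧ n ≤ L.length ∧ ∀ i, i < n → ℓ i ≤ L.getD i 0 := by
  induction n using Nat.strong_induction_on with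
  | _ n ih =>
    intro ℓ hℓ
    rcases Nat.eq_zero_or_pos n with rfl | hn
    · exact ⟨[], Good.nil, le_refl _, fun i hi => absurd hi (Nat.not_lt_zero i)⟩
    by_cases h0 : ℓ 0 = 0
    · obtain ⟨L, hL, hlen, hL2⟩ := ih (n - 1) (by omega) (fun i => ℓ (i + 1)) (by
        intro i j hij hj hi hj'
        have := hℓ (i + 1) (j + 1) (by omega) (by omega) hi hj'
        omega)
      refine ⟨0 :: L, Good.zero hL, by simp; omega, ?_⟩
      intro i hi
      rcases i with _ | i
      · simp [h0]
      · simpa using hL2 i (by omega)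
    · obtain ⟨L, hL, hlen, hL2⟩ := ih (n - 3) (by omega) (fun i => ℓ (i + 3)) (by
        intro i j hij hj hi hj'
        have := hℓ (i + 3) (j + 3) (by omega) (by omega) hi hj'
        omega)
      refine ⟨(ℓ 0 - 1 + 1) :: 0 :: 0 :: L, Good.leg _ hL, by simp; omega, ?_⟩
      intro i hi
      rcases i with _ | _ | _ | i
      · simp; omega
      · by_contra hcon
        have : ℓ 1 ≠ 0 := by intro h; simp [h] at hcon
        have := hℓ 0 1 (by omega) hi h0 this
        omega
      · by_contra hcon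
        have : ℓ 2 ≠ 0 := by intro h; simp [h] at hcon
        have := hℓ 0 2 (by omega) hi h0 this
        omega
      · simpa using hL2 i (by omega)

end Pool.Agent.Helper507.SC
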