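import Pool.Agent.Helper507.SC.Final
set_option autoImplicit false
namespace Pool.Agent.Helper507.SC

/-- a connected graph embedded in a disjoint union lies on one side -/
theorem conn_sum {A V W : Type} {K : SimpleGraph A} (hK : K.Connected) {G : SimpleGraph V}
    {G' : SimpleGraph W} (e : K ↪g (G ⊕g G')) : Nonempty (K ↪g G) ∨ Nonempty (K ↪g G') := by
  classical
  have hside : ∀ a b, K.Adj a b → (e a).isLeft = (e b).isLeft := by
    intro a b hab
    have := e.map_adj_iff.2 hab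
    rcases ha : e a with x | x <;> rcases hb : e b with y | y <;> simp [ha, hb] at this ⊢
  have hreach : ∀ a b, K.Reachable a b → (e a).isLeft = (e b).isLeft := by
    rintro a b ⟨p⟩
    induction p with
    | nil => rfl
    | cons h _ ih => exact (hside _ _ h).trans ih
  obtain ⟨a0⟩ := hK.nonempty
  rcases h0 : (e a0).isLeft with _ | _
  · right
    have h1 : ∀ a, ∃ y, e a = Sum.inr y := by
      intro a
      have := hreach a a0 (hK.preconnected a a0)
      rw [h0] at this
      rcases ha : e a with x | y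
      · rw [ha] at this; simp at this
      · exact ⟨y, rfl⟩
    choose f hf using h1
    refine ⟨⟨⟨f, ?_⟩, ?_⟩⟩
    · intro a b hab
      apply e.injective
      rw [hf, hf, hab]
    · intro a b
      rw [← e.map_adj_iff, hf a, hf b]
      simp
  · left
    have h1 : ∀ a, ∃ y, e a = Sum.inl y := by
      intro a
      have := hreach a a0 (hK.preconnected a a0)
      rw [h0] at this
      rcases ha : e a with x | y
      · exact ⟨x, rfl⟩
      · rw [ha] at this; simp at this
    choose f hf using h1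
    refine ⟨⟨⟨f, ?_⟩, ?_⟩⟩
    · intro a b hab
      apply e.injective
      rw [hf, hf, hab]
    · intro a b
      rw [← e.map_adj_iff, hf a, hf b]
      simp

/-- the class of `T`-free and `K_3`-free graphs -/
def FT {m : ℕ} (T : SimpleGraph (Fin m)) : ∀ {V : Type}, SimpleGraph V → Prop :=
  fun {_} G => IsEmpty (T ↪g G) ∧ IsEmpty ((⊤ : SimpleGraph (Fin 3)) ↪g G)

theorem cls_of_not_split {m : ℕ} (T : SimpleGraph (Fin m)) (hT : T.Connected) (hm : 3 ≤ m)
    (hns : ¬ ∃ c : ℕ, ∃ (n : ℕ) (β : SimpleGraph (Fin n)),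
        IsEmpty (T ↪g β) ∧ IsEmpty ((⊤ : SimpleGraph (Fin 3)) ↪g β) ∧
        ∀ (p : ℕ) (γ : SimpleGraph (Fin p)),
          IsEmpty (T ↪g γ) → IsEmpty ((⊤ : SimpleGraph (Fin 3)) ↪g γ) →
          ∃ f : Fin p → Fin c, ∀ e : β ↪g γ, ∃ x y : Fin n, f (e x) ≠ f (e y)) :
    Cls (FT T) := by
  classical
  have hbool : ∀ k : ℕ, 3 ≤ k → ∀ K : SimpleGraph (Fin k), IsEmpty (K ↪g (⊤ : SimpleGraph Bool)) := by
    intro k hk K
    refine ⟨fun e => ?_⟩
    have := Fintype.card_le_of_injective e e.injective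
    simp at this
    omega
  refine ⟨?_, ?_, ?_, ?_, ?_⟩
  · rintro V W G G' ⟨e⟩ ⟨h1, h2⟩
    exact ⟨⟨fun f => h1.false (e.comp f)⟩, ⟨fun f => h2.false (e.comp f)⟩⟩
  · rintro V W G G' ⟨h1, h2⟩ ⟨h3, h4⟩
    refine ⟨⟨fun e => ?_⟩, ⟨fun e => ?_⟩⟩
    · rcases conn_sum hT e with h | h
      · obtain ⟨f⟩ := h
        exact h1.false f
      · obtain ⟨f⟩ := h
        exact h3.false f
    · rcases conn_sum SimpleGraph.connected_top e with h | h
      · obtain ⟨f⟩ := h
        exact h2.false f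
      · obtain ⟨f⟩ := h
        exact h4.false f
  · rintro V G ⟨-, h2⟩ a b c hab hbc hac
    have hcf : ¬ G.CliqueFree 3 := fun hcf =>
      hcf {a, b, c} (SimpleGraph.is3Clique_triple_iff.2 ⟨hab, hac, hbc⟩)
    exact h2.false (SimpleGraph.topEmbeddingOfNotCliqueFree hcf)
  · exact ⟨hbool m hm T, hbool 3 le_rfl _⟩
  · intro W _ H hH c
    obtain ⟨h1, h2⟩ := hH
    by_contra hcon
    apply hns
    obtain ⟨E⟩ : Nonempty (W ≃ Fin (Nat.card W)) := ⟨Finite.equivFin W⟩
    let β : SimpleGraph (Fin (Nat.card W)) := H.map E.toEmbedding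
    let I : H ≃g β := SimpleGraph.Iso.map E H
    refine ⟨c, Nat.card W, β, ⟨fun f => h1.false (I.symm.toEmbedding.comp f)⟩,
      ⟨fun f => h2.false (I.symm.toEmbedding.comp f)⟩, ?_⟩
    intro p γ hγ1 hγ2
    by_contra hcon2
    push Not at hcon2
    refine hcon ⟨Fin p, inferInstance, γ, ⟨hγ1, hγ2⟩, ?_⟩
    intro f
    obtain ⟨e, he⟩ := hcon2 f
    exact ⟨e.comp I.toEmbedding, fun x y => he _ _⟩

end Pool.Agent.Helper507.SC
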