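import Pool.Agent.Helper507.SC.Base
set_option autoImplicit false
namespace Pool.Agent.Helper507.SC

/-- A hereditary class of triangle-free graphs, closed under disjoint unions, containing an edge, and
unsplittable (vertex Ramsey for finitely many colours). -/
structure Cls (F : ∀ {V : Type}, SimpleGraph V → Prop) : Prop where
  her : ∀ {V W : Type} (G : SimpleGraph V) (G' : SimpleGraph W), Nonempty (G' ↪g G) → F G → F G'
  sum : ∀ {V W : Type} (G : SimpleGraph V) (G' : SimpleGraph W), F G → F G' → F (G ⊕g G')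
  tri : ∀ {V : Type} (G : SimpleGraph V), F G → TriFree G
  edge : F (⊤ : SimpleGraph Bool)
  uns : ∀ (W : Type) [Finite W] (H : SimpleGraph W), F H → ∀ c : ℕ,
    ∃ (V : Type) (_ : Finite V) (G : SimpleGraph V), F G ∧
      ∀ f : V → Fin c, ∃ e : H ↪g G, ∀ x y, f (e x) = f (e y)

def RobS (F : ∀ {V : Type}, SimpleGraph V → Prop) (A : List (List ℕ)) : Prop :=
  ∃ (W : Type) (_ : Finite W) (_ : Nonempty W) (H : SimpleGraph W), F H ∧ ∀ t ∈ A, RobG H t

variable {F : ∀ {V : Type}, SimpleGraph V → Prop}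

theorem peel (hF : Cls F) {A : List (List ℕ)} (hA : ¬ RobS F A) :
    ∀ (n : ℕ) (V : Type) [Finite V] (G : SimpleGraph V), Nat.card V = n → F G →
      ∃ (g : V → ℕ) (τ : ℕ → List ℕ), (∀ v, τ (g v) ∈ A) ∧ (∀ a b, G.Adj a b → g a ≠ g b) ∧
        ∀ v, ¬ HasC G (τ (g v)) v {w | g v < g w} := by
  intro n
  induction n using Nat.strong_induction_on with
  | _ n ih =>
    intro V _ G hn hG
    classical
    by_cases hV : Nonempty V
    · have : ∃ t ∈ A, ¬ RobG G t := by
        by_contra hcon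
        push Not at hcon
        exact hA ⟨V, inferInstance, hV, G, hG, hcon⟩
      obtain ⟨t, htA, ht⟩ := this
      unfold RobG at ht
      push Not at ht
      obtain ⟨X, hXne, hXi, hX⟩ := ht
      have hG' : F (G.induce Xᶜ) := hF.her G _ ⟨SimpleGraph.Embedding.induce _⟩ hG
      have hcard : Nat.card (↥(Xᶜ)) < n := by
        rw [← hn]
        obtain ⟨x, hx⟩ := hXne
        exact Finite.card_subtype_lt (x := x) (by simpa using hx)
      obtain ⟨g, τ, h1, h2, h3⟩ := ih _ hcard (↥(Xᶜ)) (G.induce Xᶜ) rfl hG'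
      refine ⟨fun v => if hv : v ∈ X then 0 else g ⟨v, hv⟩ + 1,
        fun k => if k = 0 then t else τ (k - 1), ?_, ?_, ?_⟩
      · intro v
        by_cases hv : v ∈ X
        · simp [hv, htA]
        · simp [hv, h1]
      · intro a b hab
        by_cases ha : a ∈ X
        · by_cases hb : b ∈ X
          · exact absurd hab (hXi a ha b hb)
          · simp [ha, hb]
        · by_cases hb : b ∈ X
          · simp [ha, hb]
          · simp only [ha, hb, dif_neg, not_false_eq_true]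
            intro hh
            exact h2 ⟨a, ha⟩ ⟨b, hb⟩ hab (by omega)
      · intro v hcon
        by_cases hv : v ∈ X
        · refine hX v hv ?_
          simp only [hv, dif_pos, if_true] at hcon
          refine HasC.mono ?_ hcon
          intro w hw hwX
          simp [hwX] at hw
        · simp only [hv, dif_neg, not_false_eq_true, Nat.add_sub_cancel, Nat.succ_ne_zero, if_false] at hcon
          refine h3 ⟨v, hv⟩ ?_
          have hcon' := HasC.comap (SimpleGraph.Embedding.induce (G := G) Xᶜ) (L := τ (g ⟨v, hv⟩))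
            (v := ⟨v, hv⟩) (S := {w | g ⟨v, hv⟩ + 1 < if hw : w ∈ X then 0 else g ⟨w, hw⟩ + 1}) ?_ hcon
          · refine HasC.mono ?_ hcon'
            rintro ⟨w, hw⟩ hw'
            have hw2 : w ∉ X := hw
            have : g ⟨v, hv⟩ + 1 < (if hw : w ∈ X then 0 else g ⟨w, hw⟩ + 1) := hw'
            simp only [hw2, dif_neg, not_false_eq_true] at this
            show g ⟨v, hv⟩ < g ⟨w, hw⟩
            omega
          · intro w hw
            by_cases hwX : w ∈ X
            · simp [hwX] at hw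
            · exact ⟨⟨w, hwX⟩, rfl⟩
    · rw [not_nonempty_iff] at hV
      exact ⟨fun _ => 0, fun _ => [], fun v => (hV.false v).elim, fun v => (hV.false v).elim,
        fun v => (hV.false v).elim⟩

/-- combine two robust families -/
theorem RobS.append (hF : Cls F) {A B : List (List ℕ)} (hA : RobS F A) (hB : RobS F B) :
    RobS F (A ++ B) := by
  classical
  by_contra hcon
  obtain ⟨W1, _, _, H1, hH1, hr1⟩ := hA
  obtain ⟨W2, _, _, H2, hH2, hr2⟩ := hB
  obtain ⟨V, _, G, hG, huns⟩ := hF.uns (W1 ⊕ W2) (H1 ⊕g H2) (hF.sum _ _ hH1 hH2) 2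
  obtain ⟨g, τ, h1, h2, h3⟩ := peel hF hcon _ V G rfl hG
  obtain ⟨e, he⟩ := huns (fun v => if τ (g v) ∈ A then 0 else 1)
  have key : ∀ (W : Type) [Finite W] [Nonempty W] (H : SimpleGraph W) (φ : H ↪g G),
      ∃ x : W, ¬ RobG H (τ (g (φ x))) := by
    intro W _ _ H φ
    obtain ⟨x0, hx0⟩ := Finite.exists_min (fun x => g (φ x))
    refine ⟨x0, fun hR => ?_⟩
    obtain ⟨v, hv, hc⟩ := hR {x | g (φ x) = g (φ x0)} ⟨x0, rfl⟩ (by
      intro a ha b hb hab
      exact h2 _ _ (φ.map_adj_iff.2 hab) (by rw [ha, hb]))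
    have hv' : g (φ v) = g (φ x0) := hv
    refine h3 (φ v) ?_
    rw [hv']
    refine HasC.mono ?_ (HasC.map φ hc)
    rintro w ⟨w0, hw0, rfl⟩
    have := hx0 w0
    have h' : ¬ (g (φ w0) = g (φ x0)) := hw0
    show g (φ x0) < g (φ w0)
    omega
  obtain ⟨x1, hx1⟩ := key W1 H1 (e.comp SimpleGraph.Embedding.sumInl)
  obtain ⟨x2, hx2⟩ := key W2 H2 (e.comp SimpleGraph.Embedding.sumInr)
  have h1' : τ (g (e (Sum.inl x1))) ∉ A := fun hh => hx1 (hr1 _ hh)
  have h2' : τ (g (e (Sum.inr x2))) ∉ B := fun hh => hx2 (hr2 _ hh)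
  have := he (Sum.inl x1) (Sum.inr x2)
  have h2A : τ (g (e (Sum.inr x2))) ∈ A := by
    rcases List.mem_append.1 (h1 (e (Sum.inr x2))) with h | h
    · exact h
    · exact absurd h h2'
  simp [h1', h2A] at this

theorem RobS.sub {A B : List (List ℕ)} (h : ∀ t ∈ B, t ∈ A) (hA : RobS F A) : RobS F B := by
  obtain ⟨W, i1, i2, H, hH, hr⟩ := hA
  exact ⟨W, i1, i2, H, hH, fun t ht => hr t (h t ht)⟩

theorem robS_nil (hF : Cls F) : RobS F [[]] := by
  refine ⟨Bool, inferInstance, inferInstance, ⊤, hF.edge, ?_⟩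
  intro t ht
  simp only [List.mem_singleton] at ht
  subst ht
  intro X hX _
  obtain ⟨x, hx⟩ := hX
  exact ⟨x, hx, trivial⟩

theorem robS_zero (hF : Cls F) : RobS F [[0]] := by
  refine ⟨Bool, inferInstance, inferInstance, ⊤, hF.edge, ?_⟩
  intro t ht
  simp only [List.mem_singleton] at ht
  subst ht
  intro X hX hXi
  obtain ⟨x, hx⟩ := hX
  refine ⟨x, hx, ∅, rfl, by simp, by simp, !x, ?_, ?_, by simp, trivial⟩
  · intro hx2
    exact hXi x hx _ hx2 (by simp)
  · simp

theorem exists_edge {W : Type} [Nonempty W] {H : SimpleGraph W} (hR : RobG H [0]) : ∃ a b, H.Adj a b := by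
  obtain ⟨x⟩ := ‹Nonempty W›
  obtain ⟨v, hv, Y, -, -, -, u, -, hvu, -⟩ := hR {x} ⟨x, rfl⟩ (by
    rintro a rfl b rfl
    exact H.loopless.irrefl _)
  exact ⟨v, u, hvu⟩

/-- adding a new root above -/
theorem RobS.up (hF : Cls F) {L : List ℕ} (hL : RobS F [L]) : RobS F [0 :: L] := by
  classical
  by_contra hcon
  obtain ⟨W, _, _, H, hH, hr⟩ := RobS.append hF hL (robS_zero hF)
  have hrL : RobG H L := hr L (by simp)
  obtain ⟨a, b, hab⟩ := exists_edge (hr [0] (by simp))
  obtain ⟨V, _, G, hG, huns⟩ := hF.uns W H hH 2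
  obtain ⟨g, τ, h1, h2, h3⟩ := peel hF hcon _ V G rfl hG
  have h3' : ∀ v, ¬ HasC G (0 :: L) v {w | g v < g w} := by
    intro v
    have := h1 v
    simp only [List.mem_singleton] at this
    rw [← this]
    exact h3 v
  have htri := hF.tri G hG
  obtain ⟨e, he⟩ := huns (fun v => if ∃ φ : H ↪g G, (∃ h, φ h = v) ∧ ∀ h', g v ≤ g (φ h') then 1 else 0)
  obtain ⟨x0, hx0⟩ := Finite.exists_min (fun x => g (e x))
  have hone : ∀ x, ∃ φ : H ↪g G, (∃ h, φ h = e x) ∧ ∀ h', g (e x) ≤ g (φ h') := by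
    intro x
    have hx := he x x0
    have h0 : ∃ φ : H ↪g G, (∃ h, φ h = e x0) ∧ ∀ h', g (e x0) ≤ g (φ h') := ⟨e, ⟨x0, rfl⟩, hx0⟩
    by_contra hx'
    simp [h0, hx'] at hx
  have main : ∀ x y, H.Adj x y → g (e x) < g (e y) → False := by
    intro x y hxy hlt
    obtain ⟨φ, ⟨h, hh⟩, hφ⟩ := hone y
    refine h3' (e x) (HasC.mono ?_ (hasC_ext htri hrL φ (v := e x) ?_ ⟨h, ?_⟩))
    · rintro w ⟨w0, rfl⟩
      exact lt_of_lt_of_le hlt (hφ w0)
    · intro h' hh'
      have := hφ h'
      rw [hh'] at this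
      omega
    · rw [hh]
      exact e.map_adj_iff.2 hxy
  rcases lt_or_gt_of_ne (h2 _ _ (e.map_adj_iff.2 hab)) with h | h
  · exact main a b hab h
  · exact main b a hab.symm h

end Pool.Agent.Helper507.SC
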